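import Pool.Agent.Lib.MRDP.Arith

namespace Pool.Agent.Lib.MRDP

open Finset Nat Dioph

variable {α : Type}

lemma cst (n : ℕ) : DiophFn fun _ : α → ℕ => n := const_dioph n

lemma up {f : (α → ℕ) → ℕ} (h : DiophFn f) : DiophFn fun u : Option α → ℕ => f (u ∘ some) :=
  reindex_diophFn some h

lemma ex1 {P : ℕ → (α → ℕ) → Prop} (h : Dioph {u : Option α → ℕ | P (u none) (u ∘ some)}) :
    Dioph {v | ∃ x, P x v} := ex1_dioph h

lemma fn_of_rel {f : (α → ℕ) → ℕ} {P : ℕ → (α → ℕ) → Prop}
    (h : Dioph {u : Option α → ℕ | P (u none) (u ∘ some)}) (hP : ∀ y v, P y v ↔ f v = y) :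
    DiophFn f := h.ext fun _ => hP _ _

lemma fn_congr {f g : (α → ℕ) → ℕ} (h : DiophFn f) (H : ∀ v, f v = g v) : DiophFn g :=
  (funext H : f = g) ▸ h

lemma choose_dioph {f g : (α → ℕ) → ℕ} (df : DiophFn f) (dg : DiophFn g) :
    DiophFn fun v => (f v).choose (g v) := by
  have h1 := pow_dioph (cst 2) (add_dioph df (cst 1))
  exact fn_congr (mod_dioph (div_dioph (pow_dioph (add_dioph h1 (cst 1)) df) (pow_dioph h1 dg)) h1)
    fun v => (choose_eq _ _).symm

lemma factorial_dioph {f : (α → ℕ) → ℕ} (df : DiophFn f) : DiophFn fun v => (f v)! := by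
  have h1 := add_dioph (add_dioph (mul_dioph (add_dioph (pow_dioph df df) (cst 1))
    (mul_dioph df df)) df) (cst 1)
  exact fn_congr (div_dioph (pow_dioph h1 df) (choose_dioph h1 df)) fun v => (factorial_eq _).symm

lemma isPoly_modEq {γ : Type*} {f : (γ → ℕ) → ℤ} (hf : IsPoly f) :
    ∃ l : List γ, ∀ (m : ℕ) (w w' : γ → ℕ), (∀ i ∈ l, w i ≡ w' i [MOD m]) →
      f w ≡ f w' [ZMOD m] := by
  induction hf with
  | proj i => exact ⟨[i], fun m w w' h => Int.natCast_modEq_iff.2 (h i (by simp))⟩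
  | const n => exact ⟨[], fun m w w' _ => Int.ModEq.refl _⟩
  | sub _ _ h1 h2 =>
    obtain ⟨l, h1⟩ := h1
    obtain ⟨l', h2⟩ := h2
    exact ⟨l ++ l', fun m w w' h => (h1 m w w' fun i hi => h i (by simp [hi])).sub
      (h2 m w w' fun i hi => h i (by simp [hi]))⟩
  | mul _ _ h1 h2 =>
    obtain ⟨l, h1⟩ := h1
    obtain ⟨l', h2⟩ := h2
    exact ⟨l ++ l', fun m w w' h => (h1 m w w' fun i hi => h i (by simp [hi])).mul
      (h2 m w w' fun i hi => h i (by simp [hi]))⟩

lemma isPoly_bound {γ : Type*} {f : (γ → ℕ) → ℤ} (hf : IsPoly f) :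
    ∃ B : Poly γ, ∀ w w' : γ → ℕ, (∀ i, w i ≤ w' i) → |f w| ≤ B w' := by
  induction hf with
  | proj i => exact ⟨Poly.proj i, fun w w' h => by simpa using h i⟩
  | const n => exact ⟨Poly.const |n|, fun w w' _ => le_rfl⟩
  | sub _ _ h1 h2 =>
    obtain ⟨B, h1⟩ := h1
    obtain ⟨B', h2⟩ := h2
    exact ⟨B + B', fun w w' h => (abs_sub _ _).trans (add_le_add (h1 w w' h) (h2 w w' h))⟩
  | mul _ _ h1 h2 =>
    obtain ⟨B, h1⟩ := h1
    obtain ⟨B', h2⟩ := h2
    refine ⟨B * B', fun w w' h => ?_⟩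
    rw [abs_mul]
    exact mul_le_mul (h1 w w' h) (h2 w w' h) (abs_nonneg _) ((abs_nonneg _).trans (h1 w w' h))

lemma forall_list {β : Type*} {P : β → (α → ℕ) → Prop} (h : ∀ i, Dioph {v | P i v}) (l : List β) :
    Dioph {v | ∀ i ∈ l, P i v} := by
  induction l with
  | nil => exact (eq_dioph (cst 0) (cst 0)).ext fun v => by simp
  | cons i l ih => exact ((h i).inter ih).ext fun v => by simp

/-- Diophantine sets are closed under bounded universal quantification. -/
theorem ball {P : ℕ → (α → ℕ) → Prop} (h : Dioph {u : Option α → ℕ | P (u none) (u ∘ some)})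
    {b : (α → ℕ) → ℕ} (hb : DiophFn b) : Dioph {v | ∀ x < b v, P x v} := by
  obtain ⟨β, p, hp⟩ := h
  obtain ⟨l, hl⟩ := isPoly_modEq p.isPoly
  obtain ⟨B, hB⟩ := isPoly_bound p.isPoly
  let l' : List β := l.filterMap Sum.getRight?
  let σ : Option α ⊕ β → α ⊕ β ⊕ Fin 3 :=
    Sum.elim (fun o => o.elim (Sum.inr (Sum.inr 0)) Sum.inl) fun _ => Sum.inr (Sum.inr 1)
  let τ : Option α ⊕ β → α ⊕ β ⊕ Fin 3 :=
    Sum.elim (fun o => o.elim (Sum.inr (Sum.inr 2)) Sum.inl) fun i => Sum.inr (Sum.inl i)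
  have pr : ∀ i : α ⊕ β ⊕ Fin 3, DiophFn fun u : α ⊕ β ⊕ Fin 3 → ℕ => u i := proj_dioph
  have h1 := ex_dioph ((eq_dioph (pr (Sum.inr (Sum.inr 0))) (reindex_diophFn Sum.inl hb)).inter
    ((dvd_dioph (mul_dioph (factorial_dioph (pr (Sum.inr (Sum.inr 0)))) (factorial_dioph
      (add_dioph (add_dioph (add_dioph (pr (Sum.inr (Sum.inr 0))) (pr (Sum.inr (Sum.inr 1))))
        (abs_poly_dioph (B.map σ))) (cst 3))))
        (add_dioph (pr (Sum.inr (Sum.inr 2))) (cst 1))).inter
    ((dvd_dioph (choose_dioph (pr (Sum.inr (Sum.inr 2))) (pr (Sum.inr (Sum.inr 0))))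
      (abs_poly_dioph (p.map τ))).inter
    (forall_list (fun i => dvd_dioph
      (choose_dioph (pr (Sum.inr (Sum.inr 2))) (pr (Sum.inr (Sum.inr 0))))
      (choose_dioph (pr (Sum.inr (Sum.inl i))) (pr (Sum.inr (Sum.inr 1))))) l'))))
  refine h1.ext fun v => ?_
  have h2 := bounded_forall (b v) (fun x t => p (Sum.elim (Option.elim' x v) t)) l'
    (fun W => (B (Sum.elim (Option.elim' (b v) v) fun _ => W)).natAbs) ?_ ?_
  · have h3 : ∀ x, P x v ↔ ∃ t, p (Sum.elim (Option.elim' x v) t) = 0 := fun x =>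
      hp (Option.elim' x v)
    simp only [Set.mem_ofPred_eq, h3, h2, Set.mem_inter_iff, Sum.elim_inr, Poly.map_apply]
    constructor
    · rintro ⟨x, h4, h5, h6, h7⟩
      have e1 : Sum.elim v x ∘ σ =
          Sum.elim (Option.elim' (b v) v) fun _ => x (Sum.inr 1) := by
        funext i
        rcases i with (_ | i) | i
        exacts [h4, rfl, rfl]
      have e2 : Sum.elim v x ∘ τ = Sum.elim (Option.elim' (x (Sum.inr 2)) v) (x ∘ Sum.inl) := by
        funext i
        rcases i with (_ | i) | i <;> rfl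
      have h8 : x (Sum.inr 0) = b v := h4
      rw [e1, h8] at h5
      rw [e2, h8] at h6
      rw [h8] at h7
      exact ⟨x (Sum.inr 1), x (Sum.inr 2), x ∘ Sum.inl, h5, h6, h7⟩
    · rintro ⟨W, q, z, h5, h6, h7⟩
      have e1 : Sum.elim v (Sum.elim z ![b v, W, q]) ∘ σ =
          Sum.elim (Option.elim' (b v) v) fun _ => W := by
        funext i
        rcases i with (_ | i) | i <;> rfl
      have e2 : Sum.elim v (Sum.elim z ![b v, W, q]) ∘ τ = Sum.elim (Option.elim' q v) z := by
        funext i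
        rcases i with (_ | i) | i <;> rfl
      refine ⟨Sum.elim z ![b v, W, q], rfl, ?_, ?_, h7⟩
      · rw [e1]; exact h5
      · rw [e2]; exact h6
  · intro m x x' t t' hx ht
    refine hl m _ _ fun i hi => ?_
    rcases i with (_ | i) | i
    · exact hx
    · exact Nat.ModEq.refl _
    · exact ht i (List.mem_filterMap.2 ⟨_, hi, rfl⟩)
  · intro W x t hx ht
    have h3 := hB (Sum.elim (Option.elim' x v) t) (Sum.elim (Option.elim' (b v) v) fun _ => W)
      (by
        intro i
        rcases i with (_ | i) | i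
        exacts [hx, le_rfl, ht i])
    have h4 := h3.trans (le_abs_self _)
    rwa [← Int.natCast_natAbs, ← Int.natCast_natAbs, Nat.cast_le] at h4

lemma pair_dioph {f g : (α → ℕ) → ℕ} (df : DiophFn f) (dg : DiophFn g) :
    DiophFn fun v => Nat.pair (f v) (g v) := by
  refine fn_of_rel (P := fun y v => (f v < g v ∧ g v * g v + f v = y) ∨
    (g v ≤ f v ∧ f v * f v + f v + g v = y))
    (((lt_dioph (up df) (up dg)).inter (eq_dioph (add_dioph (mul_dioph (up dg) (up dg)) (up df))
      (proj_dioph none))).union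
      ((le_dioph (up dg) (up df)).inter (eq_dioph (add_dioph (add_dioph
        (mul_dioph (up df) (up df)) (up df)) (up dg)) (proj_dioph none)))) fun y v => ?_
  unfold Nat.pair
  split_ifs with h
  · simp [h]
  · simp [h, not_lt.1 h]

lemma left_dioph {f : (α → ℕ) → ℕ} (df : DiophFn f) : DiophFn fun v => (f v).unpair.1 := by
  refine fn_of_rel (P := fun y v => ∃ z, Nat.pair y z = f v)
    (ex1 (P := fun z (u : Option α → ℕ) => Nat.pair (u none) z = f (u ∘ some))
      (eq_dioph (pair_dioph (proj_dioph (some none)) (proj_dioph none)) (up (up df))))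
    fun y v => ⟨?_, ?_⟩
  · rintro ⟨z, h⟩
    rw [← h, Nat.unpair_pair]
  · rintro rfl
    exact ⟨_, Nat.pair_unpair _⟩

lemma right_dioph {f : (α → ℕ) → ℕ} (df : DiophFn f) : DiophFn fun v => (f v).unpair.2 := by
  refine fn_of_rel (P := fun y v => ∃ z, Nat.pair z y = f v)
    (ex1 (P := fun z (u : Option α → ℕ) => Nat.pair z (u none) = f (u ∘ some))
      (eq_dioph (pair_dioph (proj_dioph none) (proj_dioph (some none))) (up (up df))))
    fun y v => ⟨?_, ?_⟩
  · rintro ⟨z, h⟩
    rw [← h, Nat.unpair_pair]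
  · rintro rfl
    exact ⟨_, Nat.pair_unpair _⟩

lemma beta_dioph {f g : (α → ℕ) → ℕ} (df : DiophFn f) (dg : DiophFn g) :
    DiophFn fun v => Nat.beta (f v) (g v) :=
  mod_dioph (left_dioph df) (add_dioph (mul_dioph (add_dioph dg (cst 1)) (right_dioph df)) (cst 1))

lemma rec_iff (a n y : ℕ) (g : ℕ → ℕ → ℕ) :
    (∃ s, Nat.beta s 0 = a ∧ Nat.beta s n = y ∧ ∀ i < n, Nat.beta s (i + 1) = g i (Nat.beta s i)) ↔
      (Nat.rec a g n : ℕ) = y := by
  constructor
  · rintro ⟨s, h0, rfl, h⟩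
    induction n with
    | zero => exact h0.symm
    | succ n ih => rw [h n n.lt_succ_self, ← ih fun i hi => h i (by omega)]
  · rintro rfl
    have h : ∀ i < n + 1, Nat.beta (Nat.unbeta ((List.range (n + 1)).map
        fun k => (Nat.rec a g k : ℕ))) i = (Nat.rec a g i : ℕ) := by
      intro i hi
      have h1 := Nat.beta_unbeta_coe ((List.range (n + 1)).map fun k => (Nat.rec a g k : ℕ))
        ⟨i, by simpa using hi⟩
      simpa using h1
    exact ⟨_, h 0 (by omega), h n (by omega), fun i hi => by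
      rw [h (i + 1) (by omega), h i (by omega)]⟩

/-- primitive recursive functions preserve Diophantine functions. -/
theorem primrec_dioph {f : ℕ → ℕ} (hf : Nat.Primrec f) :
    ∀ {α : Type} {g : (α → ℕ) → ℕ}, DiophFn g → DiophFn fun v => f (g v) := by
  induction hf with
  | zero => exact fun _ => cst 0
  | succ => exact fun h => add_dioph h (cst 1)
  | left => exact left_dioph
  | right => exact right_dioph
  | pair _ _ h1 h2 => exact fun h => pair_dioph (h1 h) (h2 h)
  | comp _ _ h1 h2 => exact fun h => h1 (h2 h)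
  | @prec f g _ _ h1 h2 =>
    intro α e h
    refine fn_of_rel (P := fun y v => ∃ s, Nat.beta s 0 = f (e v).unpair.1 ∧
      Nat.beta s (e v).unpair.2 = y ∧ ∀ i < (e v).unpair.2, Nat.beta s (i + 1) =
        g (Nat.pair (e v).unpair.1 (Nat.pair i (Nat.beta s i)))) ?_
      fun y v => rec_iff _ _ _ fun i IH => g (Nat.pair (e v).unpair.1 (Nat.pair i IH))
    refine ex1 (P := fun s (u : Option α → ℕ) => Nat.beta s 0 = f (e (u ∘ some)).unpair.1 ∧
      Nat.beta s (e (u ∘ some)).unpair.2 = u none ∧ ∀ i < (e (u ∘ some)).unpair.2,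
        Nat.beta s (i + 1) = g (Nat.pair (e (u ∘ some)).unpair.1 (Nat.pair i (Nat.beta s i))))
      ((eq_dioph (beta_dioph (proj_dioph none) (cst 0)) (h1 (left_dioph (up (up h))))).inter
        ((eq_dioph (beta_dioph (proj_dioph none) (right_dioph (up (up h))))
          (proj_dioph (some none))).inter ?_))
    exact ball (P := fun i (w : Option (Option α) → ℕ) => Nat.beta (w none) (i + 1) =
      g (Nat.pair (e ((w ∘ some) ∘ some)).unpair.1 (Nat.pair i (Nat.beta (w none) i))))
      (eq_dioph (beta_dioph (proj_dioph (some none)) (add_dioph (proj_dioph none) (cst 1)))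
        (h2 (pair_dioph (left_dioph (up (up (up h)))) (pair_dioph (proj_dioph none)
          (beta_dioph (proj_dioph (some none)) (proj_dioph none))))))
      (right_dioph (up (up h)))

/-- The theorem of Matiyasevich, Robinson, Davis and Putnam: recursively enumerable sets of
natural numbers are Diophantine. -/
theorem re_dioph {p : ℕ → Prop} (hp : REPred p) {g : (α → ℕ) → ℕ} (hg : DiophFn g) :
    Dioph {v | p (g v)} := by
  obtain ⟨c, hc⟩ := Nat.Partrec.Code.exists_code.1 (Partrec.nat_iff.1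
    (hp.map (Computable.const 0).to₂))
  have h1 : Primrec fun n : ℕ => Encodable.encode
      (Nat.Partrec.Code.evaln n.unpair.1 c n.unpair.2) :=
    Primrec.encode.comp (Nat.Partrec.Code.primrec_evaln.comp
      (((Primrec.fst.comp Primrec.unpair).pair (Primrec.const c)).pair
        (Primrec.snd.comp Primrec.unpair)))
  have h2 := primrec_dioph (Primrec.nat_iff.1 h1) (pair_dioph (proj_dioph none) (up hg))
  refine (ex1 (P := fun k v => Encodable.encode (Nat.Partrec.Code.evaln (Nat.pair k (g v)).unpair.1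
    c (Nat.pair k (g v)).unpair.2) = 1) (eq_dioph h2 (cst 1))).ext fun v => ?_
  have h3 : p (g v) ↔ 0 ∈ c.eval (g v) := by simp [hc]
  simp only [Set.mem_ofPred_eq, Nat.unpair_pair, h3, Nat.Partrec.Code.evaln_complete]
  refine exists_congr fun k => ?_
  rcases Nat.Partrec.Code.evaln k c (g v) with _ | x <;> simp

/-- normal form with natural numbers as variable names. -/
theorem re_poly {p : ℕ → Prop} (hp : REPred p) :
    ∃ P : Poly ℕ, ∀ n, p n ↔ ∃ t : ℕ → ℕ, t 0 = n ∧ P t = 0 := by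
  classical
  obtain ⟨β, P, hP⟩ := re_dioph hp (proj_dioph (α := Unit) ())
  obtain ⟨l, hl⟩ := isPoly_modEq P.isPoly
  let : BEq (Unit ⊕ β) := instBEqOfDecidableEq
  refine ⟨P.map (Sum.elim (fun _ => 0) fun i => l.idxOf (Sum.inr i) + 1), fun n => ?_⟩
  refine (hP fun _ => n).trans ⟨?_, ?_⟩
  · rintro ⟨t, ht⟩
    refine ⟨fun k => Nat.casesOn k n fun k => (l.map (Sum.elim (fun _ => n) t)).getD k 0, rfl, ?_⟩
    rw [Poly.map_apply, ← ht]
    have h0 : ∀ a b : ℤ, a ≡ b [ZMOD ((0 : ℕ) : ℤ)] → a = b := fun a b h => by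
      simpa [Int.ModEq] using h
    refine h0 _ _ (hl 0 _ _ fun i hi => ?_)
    rcases i with i | i
    · rfl
    · rw [Nat.modEq_zero_iff]
      simp [List.getD_eq_getElem?_getD, List.getElem?_idxOf hi]
  · rintro ⟨t, rfl, ht⟩
    refine ⟨fun i => t (l.idxOf (Sum.inr i) + 1), ?_⟩
    rw [← ht, Poly.map_apply]
    congr 1
    funext i
    rcases i with i | i <;> rfl

end Pool.Agent.Lib.MRDP
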