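import Mathlib

namespace Pool.Agent.Lib.MRDP

open Finset Nat

lemma digit_sum (u : ℕ) (k : ℕ) : ∀ (c : ℕ → ℕ) (N : ℕ), (∀ i, c i < u) →
    (∑ i ∈ range N, c i * u ^ i) / u ^ k % u = if k < N then c k else 0 := by
  induction k with
  | zero =>
    intro c N hc
    rcases N with _ | N
    · simp
    · rw [sum_range_succ', pow_zero, Nat.div_one, if_pos N.succ_pos, mul_one]
      have h : ∑ i ∈ range N, c (i + 1) * u ^ (i + 1) = u * ∑ i ∈ range N, c (i + 1) * u ^ i := by
        rw [mul_sum]; exact sum_congr rfl fun i _ => by ring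
      rw [h, Nat.mul_add_mod, Nat.mod_eq_of_lt (hc 0)]
  | succ k ih =>
    intro c N hc
    rcases N with _ | N
    · simp
    · have h : ∑ i ∈ range N, c (i + 1) * u ^ (i + 1) = u * ∑ i ∈ range N, c (i + 1) * u ^ i := by
        rw [mul_sum]; exact sum_congr rfl fun i _ => by ring
      have hu : 0 < u := (Nat.zero_le _).trans_lt (hc 0)
      rw [sum_range_succ', h, pow_zero, mul_one, pow_succ', ← Nat.div_div_eq_div_mul,
        Nat.mul_add_div hu, Nat.div_eq_of_lt (hc 0), add_zero, ih _ _ fun i => hc (i + 1)]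
      simp

lemma choose_eq (n k : ℕ) :
    n.choose k = (2 ^ (n + 1) + 1) ^ n / (2 ^ (n + 1)) ^ k % 2 ^ (n + 1) := by
  have h : (2 ^ (n + 1) + 1) ^ n = ∑ i ∈ range (n + 1), n.choose i * (2 ^ (n + 1)) ^ i := by
    rw [add_pow]
    exact sum_congr rfl fun i _ => by simp [mul_comm]
  rw [h, digit_sum _ _ _ _ fun i => (Nat.choose_le_two_pow n i).trans_lt
    (Nat.pow_lt_pow_right one_lt_two n.lt_succ_self)]
  split_ifs with h1
  · rfl
  · exact Nat.choose_eq_zero_of_lt (by omega)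

lemma factorial_eq (n : ℕ) :
    n ! = ((n ^ n + 1) * (n * n) + n + 1) ^ n / ((n ^ n + 1) * (n * n) + n + 1).choose n := by
  obtain ⟨r, hr⟩ : ∃ r, r = (n ^ n + 1) * (n * n) + n + 1 := ⟨_, rfl⟩
  rw [← hr]
  have hnr : n < r := by omega
  have h1 := Nat.descFactorial_eq_factorial_mul_choose r n
  symm
  refine Nat.div_eq_of_lt_le ?_ ?_
  · rw [← h1]; exact Nat.descFactorial_le_pow r n
  · rcases Nat.eq_zero_or_pos n with rfl | hn
    · simp
    obtain ⟨s, hs⟩ := Nat.exists_eq_add_of_le hnr.le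
    have h2 : s ^ n ≤ r.descFactorial n :=
      (Nat.pow_le_pow_left (by omega) n).trans (Nat.pow_sub_le_descFactorial r n)
    have h3 : r ^ n ≤ s ^ n + n * n * r ^ (n - 1) := by
      have h4 := abs_pow_sub_pow_le (a := (r : ℤ)) (b := s) (n := n)
      have h5 : (r : ℤ) - s = n := by rw [hs]; push_cast; ring
      have h6 : max |(r : ℤ)| |(s : ℤ)| = r := by
        rw [Nat.abs_cast, Nat.abs_cast]
        exact max_eq_left (by exact_mod_cast (by omega : s ≤ r))
      rw [h5, h6, Nat.abs_cast] at h4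
      have h7 := (le_abs_self _).trans h4
      zify
      linarith
    have h4 : n ! ≤ n ^ n := Nat.factorial_le_pow n
    have h5 : r ^ n = r * r ^ (n - 1) := by rw [← pow_succ']; congr 1; omega
    have h6 : 0 < r ^ (n - 1) := pow_pos (by omega) _
    have h7 : (n ! + 1) * (n * n) < r := by
      have := Nat.mul_le_mul_right (n * n) (Nat.add_le_add_right h4 1)
      omega
    have h8 : (n ! + 1) * (n * n * r ^ (n - 1)) < r ^ n := by
      rw [h5, ← mul_assoc]
      exact Nat.mul_lt_mul_of_pos_right h7 h6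
    refine Nat.lt_of_mul_lt_mul_left (a := n !) ?_
    have h9 : n ! * ((n ! + 1) * r.choose n) = (n ! + 1) * r.descFactorial n := by rw [h1]; ring
    rw [h9]
    have h10 := Nat.mul_le_mul_left (n ! + 1) (h3.trans (Nat.add_le_add_right h2 _))
    nlinarith

lemma exists_modEq_of_dvd_choose {p z W : ℕ} (hp : p.Prime) (h : p ∣ z.choose W) :
    ∃ y ≤ W, y ≡ z [MOD p] := by
  by_cases hz : z ≤ W
  · exact ⟨z, hz, Nat.ModEq.refl _⟩
  · have h1 : p ∣ z.descFactorial W := by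
      rw [Nat.descFactorial_eq_factorial_mul_choose]; exact h.mul_left _
    rw [Nat.descFactorial_eq_prod_range, hp.prime.dvd_finsetProd_iff] at h1
    obtain ⟨j, hj, h2⟩ := h1
    rw [mem_range] at hj
    exact ⟨j, hj.le, (Nat.modEq_iff_dvd' (by omega)).2 h2⟩

lemma aux_mod {b K q x : ℕ} (h : b ! * K ! ∣ q + 1) (hx : x < b) :
    K ! ∣ (q + 1) / (x + 1) ∧ q - x = (x + 1) * ((q + 1) / (x + 1) - 1) ∧ x ≤ q := by
  obtain ⟨c, hc⟩ := h
  obtain ⟨e, he⟩ : x + 1 ∣ b ! := Nat.dvd_factorial x.succ_pos hx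
  have h1 : (q + 1) / (x + 1) = e * K ! * c := by
    rw [hc, he, mul_assoc, mul_assoc, Nat.mul_div_cancel_left _ x.succ_pos, mul_assoc]
  have h2 : q + 1 = (x + 1) * (e * K ! * c) := by rw [hc, he]; ring
  have h3 : 0 < e * K ! * c := Nat.pos_of_ne_zero fun h => by rw [h] at h2; omega
  refine ⟨h1 ▸ ⟨e * c, by ring⟩, ?_, by nlinarith⟩
  rw [h1, Nat.mul_sub, ← h2]
  omega

lemma aux_prime {K M p : ℕ} (h : K ! ∣ M) (hM : 0 < M) (hp : p.Prime) (h1 : p ∣ M - 1) : K < p := by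
  by_contra h2
  have h3 : p ∣ M := (Nat.dvd_factorial hp.pos (not_lt.1 h2)).trans h
  have h4 : p ∣ M - (M - 1) := Nat.dvd_sub h3 h1
  rw [show M - (M - 1) = 1 by omega] at h4
  exact hp.one_lt.ne' (Nat.dvd_one.1 h4)

theorem bounded_forall {β : Type*} (b : ℕ) (G : ℕ → (β → ℕ) → ℤ) (l : List β) (Bd : ℕ → ℕ)
    (hG : ∀ (m x x' : ℕ) (t t' : β → ℕ), x ≡ x' [MOD m] → (∀ i ∈ l, t i ≡ t' i [MOD m]) →
      G x t ≡ G x' t' [ZMOD m])
    (hB : ∀ W x t, x ≤ b → (∀ i, t i ≤ W) → (G x t).natAbs ≤ Bd W) :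
    (∀ x < b, ∃ t, G x t = 0) ↔ ∃ (W q : ℕ) (z : β → ℕ), b ! * (b + W + Bd W + 3)! ∣ q + 1 ∧
      q.choose b ∣ (G q z).natAbs ∧ ∀ i ∈ l, q.choose b ∣ (z i).choose W := by
  classical
  constructor
  · intro h
    choose! t ht using h
    obtain ⟨W, hW⟩ : ∃ W, ∀ x < b, ∀ i ∈ l, t x i < W := by
      refine ⟨(∑ x ∈ range b, ∑ i ∈ l.toFinset, t x i) + 1, fun x hx i hi => Nat.lt_succ_of_le ?_⟩
      exact (single_le_sum (f := t x) (fun _ _ => Nat.zero_le _) (List.mem_toFinset.2 hi)).trans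
        (single_le_sum (f := fun x => ∑ i ∈ l.toFinset, t x i) (fun _ _ => Nat.zero_le _)
          (mem_range.2 hx))
    obtain ⟨K, hK⟩ : ∃ K, K = b + W + Bd W + 3 := ⟨_, rfl⟩
    obtain ⟨q, hq⟩ : ∃ q, q + 1 = b ! * K ! :=
      Nat.exists_add_one_eq.2 (mul_pos b.factorial_pos K.factorial_pos)
    have hd : b ! * K ! ∣ q + 1 := hq ▸ dvd_rfl
    let m : ℕ → ℕ := fun x => (q + 1) / (x + 1) - 1
    have h6 : 6 ≤ K ! := (Nat.factorial_le (by omega : 3 ≤ K))
    have hpos : ∀ x < b, 0 < (q + 1) / (x + 1) := fun x hx =>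
      Nat.div_pos (by have := (aux_mod hd hx).2.2; omega) x.succ_pos
    have hm0 : ∀ x < b, m x ≠ 0 := fun x hx => by
      have := Nat.le_of_dvd (hpos x hx) (aux_mod hd hx).1
      simp only [m]
      omega
    have hmp : ∀ x < b, ∀ p, p.Prime → p ∣ m x → K < p := fun x hx p hp h =>
      aux_prime (aux_mod hd hx).1 (hpos x hx) hp h
    have hmq : ∀ x < b, x ≡ q [MOD m x] := fun x hx =>
      (Nat.modEq_iff_dvd' (aux_mod hd hx).2.2).2 ((aux_mod hd hx).2.1 ▸ Dvd.intro_left _ rfl)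
    have hco : Set.Pairwise (range b : Finset ℕ) (Function.onFun Nat.Coprime m) := by
      intro x hx y hy hxy
      rw [mem_coe, mem_range] at hx hy
      refine Nat.coprime_of_dvd fun p hp h1 h2 => ?_
      have h3 := ((hmq x hx).of_dvd h1).trans ((hmq y hy).of_dvd h2).symm
      have h4 := hmp x hx p hp h1
      exact hxy (Nat.ModEq.eq_of_lt_of_lt h3 (by omega) (by omega))
    have hprod : q.choose b = ∏ x ∈ range b, m x := by
      refine Nat.eq_of_mul_eq_mul_left b.factorial_pos ?_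
      rw [← Nat.descFactorial_eq_factorial_mul_choose, Nat.descFactorial_eq_prod_range,
        ← prod_range_add_one_eq_factorial, ← prod_mul_distrib]
      exact prod_congr rfl fun x hx => (aux_mod hd (mem_range.1 hx)).2.1
    have hdvd : ∀ N, (∀ x < b, m x ∣ N) → q.choose b ∣ N := fun N hN => by
      rw [hprod]
      exact prod_dvd_of_isRelPrime (fun x hx y hy hxy =>
        Nat.coprime_iff_isRelPrime.1 (hco hx hy hxy)) fun x hx => hN x (mem_range.1 hx)
    let z : β → ℕ := fun i => Nat.chineseRemainderOfFinset (fun x => t x i) m (range b)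
      (fun x hx => hm0 x (mem_range.1 hx)) hco
    have hz : ∀ i, ∀ x < b, z i ≡ t x i [MOD m x] := fun i x hx =>
      (Nat.chineseRemainderOfFinset (fun x => t x i) m (range b)
        (fun x hx => hm0 x (mem_range.1 hx)) hco).2 x (mem_range.2 hx)
    refine ⟨W, q, z, hK ▸ hd, hdvd _ fun x hx => ?_, fun i hi => hdvd _ fun x hx => ?_⟩
    · have h1 := hG (m x) q x z (t x) (hmq x hx).symm fun i _ => hz i x hx
      rw [ht x hx] at h1
      exact Int.natCast_dvd.1 (Int.modEq_zero_iff_dvd.1 h1)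
    · refine Nat.Coprime.dvd_of_dvd_mul_left (m := W !) ?_ ?_
      · refine Nat.coprime_of_dvd fun p hp h1 h2 => ?_
        have h3 := hmp x hx p hp h1
        have h4 := hp.dvd_factorial.1 h2
        omega
      · rw [← Nat.descFactorial_eq_factorial_mul_choose, Nat.descFactorial_eq_prod_range]
        refine Dvd.dvd.trans ?_ (dvd_prod_of_mem _ (mem_range.2 (hW x hx i hi)))
        by_cases h1 : t x i ≤ z i
        · exact (Nat.modEq_iff_dvd' h1).1 (hz i x hx).symm
        · rw [Nat.sub_eq_zero_of_le (by omega)]; exact dvd_zero _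
  · rintro ⟨W, q, z, hd, h1, h2⟩ x hx
    obtain ⟨K, hK⟩ : ∃ K, K = b + W + Bd W + 3 := ⟨_, rfl⟩
    rw [← hK] at hd
    obtain ⟨a1, a2, a3⟩ := aux_mod hd hx
    have hpos : 0 < (q + 1) / (x + 1) := Nat.div_pos (by omega) x.succ_pos
    have h6 : 6 ≤ K ! := (Nat.factorial_le (by omega : 3 ≤ K))
    have h7 := Nat.le_of_dvd hpos a1
    obtain ⟨p, hp, hpm⟩ := Nat.exists_prime_and_dvd (by omega : (q + 1) / (x + 1) - 1 ≠ 1)
    have hKp := aux_prime a1 hpos hp hpm
    have hpq : p ∣ q - x := a2 ▸ hpm.mul_left _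
    have hpc : p ∣ q.choose b := by
      have h3 : p ∣ q.descFactorial b := by
        rw [Nat.descFactorial_eq_prod_range]
        exact hpq.trans (dvd_prod_of_mem _ (mem_range.2 hx))
      rw [Nat.descFactorial_eq_factorial_mul_choose, hp.dvd_mul, hp.dvd_factorial] at h3
      exact h3.resolve_left (by omega)
    have h3 : ∀ i, ∃ y ≤ W, i ∈ l → y ≡ z i [MOD p] := by
      intro i
      by_cases hi : i ∈ l
      · obtain ⟨y, h4, h5⟩ := exists_modEq_of_dvd_choose hp (hpc.trans (h2 i hi))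
        exact ⟨y, h4, fun _ => h5⟩
      · exact ⟨0, Nat.zero_le _, fun h => absurd h hi⟩
    choose y hy hy' using h3
    refine ⟨y, ?_⟩
    have h4 := hG p x q y z ((Nat.modEq_iff_dvd' a3).2 hpq) hy'
    have h5 : (p : ℤ) ∣ G x y :=
      (Int.ModEq.dvd_iff h4).2 (Int.natCast_dvd.2 (hpc.trans h1))
    have h8 := hB W x y hx.le hy
    rw [Int.natCast_dvd] at h5
    exact Int.natAbs_eq_zero.1 (Nat.eq_zero_of_dvd_of_lt h5 (by omega))

end Pool.Agent.Lib.MRDP
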